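import Pool.Agent.R743.Cheb.Rigid

/-!
# A flat Chebyshev metric with continuous angle that is not locally additive

We disprove the question: there is a continuous function `ω` on the whole plane with `|sin ω| < 1`
and a `C¹` map `f` of the whole plane to the Euclidean plane with `|f_u| = |f_v| = 1` and
`f_u · f_v = sin ω` everywhere, while `ω` is not of the form `g(u) + h(v)` near some point.
-/

set_option autoImplicit false

namespace Pool.Agent.Results.MP_65e1c6_gt.NotAdditive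

open Set Filter Topology
open Pool.Agent.R743.Cheb

/-- The metric `du² + 2 sin ω du dv + dv²` is locally Euclidean on `D`: every point of `D` has an
open neighbourhood `U ⊆ D` and a `C¹` map `f : U → ℝ²` with `|f_u| = |f_v| = 1` and
`f_u · f_v = sin ω` at every point of `U`. -/
def LocallyEuclidean (D : Set (ℝ × ℝ)) (ω : ℝ × ℝ → ℝ) : Prop :=
  ∀ p ∈ D, ∃ U : Set (ℝ × ℝ), IsOpen U ∧ p ∈ U ∧ U ⊆ D ∧
    ∃ f : ℝ × ℝ → EuclideanSpace ℝ (Fin 2), ContDiffOn ℝ 1 f U ∧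
      ∀ x ∈ U, ‖fderiv ℝ f x (1, 0)‖ = 1 ∧ ‖fderiv ℝ f x (0, 1)‖ = 1 ∧
        inner ℝ (fderiv ℝ f x (1, 0)) (fderiv ℝ f x (0, 1)) = Real.sin (ω x)

/-- `ω(u,v) = g(u) + h(v)` on the open rectangle `I × J`, with `g` continuous on `I` and `h`
continuous on `J`. -/
def AdditiveOn (I J : Set ℝ) (ω : ℝ × ℝ → ℝ) : Prop :=
  ∃ g h : ℝ → ℝ, ContinuousOn g I ∧ ContinuousOn h J ∧
    ∀ u ∈ I, ∀ v ∈ J, ω (u, v) = g u + h v

/-- `ω` is locally additive on `D`: every point of `D` has a neighbourhood `I × J ⊆ D`, `I` and `J`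
open intervals, on which `ω(u,v) = g(u) + h(v)` with `g`, `h` continuous. -/
def LocallyAdditive (D : Set (ℝ × ℝ)) (ω : ℝ × ℝ → ℝ) : Prop :=
  ∀ p ∈ D, ∃ a b c d : ℝ, p ∈ Ioo a b ×ˢ Ioo c d ∧ Ioo a b ×ˢ Ioo c d ⊆ D ∧
    AdditiveOn (Ioo a b) (Ioo c d) ω

/-- The statement asked about. -/
def Question : Prop :=
  ∀ D : Set (ℝ × ℝ), IsOpen D → ∀ ω : ℝ × ℝ → ℝ, ContinuousOn ω D →
    (∀ x ∈ D, |Real.sin (ω x)| < 1) → LocallyEuclidean D ω → LocallyAdditive D ω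

theorem main : ∃ (ω : ℝ × ℝ → ℝ) (f : ℝ × ℝ → EuclideanSpace ℝ (Fin 2)) (p : ℝ × ℝ),
    Continuous ω ∧ (∀ x, |Real.sin (ω x)| < 1) ∧ ContDiff ℝ 1 f ∧
    (∀ x, ‖fderiv ℝ f x (1, 0)‖ = 1 ∧ ‖fderiv ℝ f x (0, 1)‖ = 1 ∧
      inner ℝ (fderiv ℝ f x (1, 0)) (fderiv ℝ f x (0, 1)) = Real.sin (ω x)) ∧
    ¬ ∃ U ∈ 𝓝 p, ∃ g h : ℝ → ℝ, ∀ x ∈ U, ω x = g x.1 + h x.2 := by
  obtain ⟨f, hf, hu, hv, hcu, hcv, hne⟩ := exists_map
  have hC : Chart f := ⟨hf, hu, hv, hcu, hcv⟩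
  have key : ∃ p : ℝ × ℝ, ¬ ∃ U ∈ 𝓝 p, ∃ g h : ℝ → ℝ, ∀ x ∈ U, ang f x = g x.1 + h x.2 := by
    by_contra hcon
    push Not at hcon
    -- the first partial derivative is locally constant in the second variable
    have hloc : ∀ u : ℝ, IsLocallyConstant fun v : ℝ => fderiv ℝ f (u, v) (1, 0) := by
      intro u
      rw [IsLocallyConstant.iff_eventually_eq]
      intro v
      obtain ⟨U, hU, g, h, hgh⟩ := hcon (u, v)
      obtain ⟨V, hVU, hVo, hpV⟩ := mem_nhds_iff.1 hU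
      have h1 := hC.rigid hVo hpV (fun x hx => hgh x (hVU hx))
      obtain ⟨c, hc, hy⟩ := h1.self_of_nhds
      have h2 : Tendsto (fun w : ℝ => ((u, w) : ℝ × ℝ)) (𝓝 v) (𝓝 (u, v)) :=
        (Continuous.prodMk_right u).tendsto v
      refine (h2.eventually hy).mono fun w hw => ?_
      rw [hw rfl, hc]
    have hconst : ∀ u v w : ℝ, fderiv ℝ f (u, v) (1, 0) = fderiv ℝ f (u, w) (1, 0) := fun u v w =>
      (hloc u).apply_eq_of_preconnectedSpace v w
    have hder : ∀ u v : ℝ, HasDerivAt (fun s : ℝ => f (s, v)) (fderiv ℝ f (u, v) (1, 0)) u := by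
      intro u v
      have h1 : HasFDerivAt f (fderiv ℝ f (u, v)) (u, v) :=
        (hf.differentiable (by simp) _).hasFDerivAt
      have h2 : HasDerivAt (fun s : ℝ => ((s, v) : ℝ × ℝ)) (1, 0) u :=
        (hasDerivAt_id u).prodMk (hasDerivAt_const u v)
      exact h1.comp_hasDerivAt u h2
    have hd0 : ∀ u : ℝ, HasDerivAt (fun s : ℝ => f (s, 1 / 4) - f (s, 0)) 0 u := by
      intro u
      have h1 := (hder u (1 / 4)).sub (hder u 0)
      rw [hconst u (1 / 4) 0, sub_self] at h1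
      exact h1
    have hc := is_const_of_deriv_eq_zero (fun u => (hd0 u).differentiableAt)
      (fun u => (hd0 u).deriv) (1 / 4) 0
    apply hne
    have h2 : f (1 / 4, 1 / 4) - f (1 / 4, 0) = f (0, 1 / 4) - f (0, 0) := hc
    rw [h2]
    ring
  obtain ⟨p, hp⟩ := key
  set R : ℂ ≃ₗᵢ[ℝ] EuclideanSpace ℝ (Fin 2) := Complex.orthonormalBasisOneI.repr with hR
  refine ⟨ang f, fun x => R (f x), p, hC.cont_ang, ?_, R.contDiff.comp hf, ?_, hp⟩
  · intro x
    rw [hC.sin_ang]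
    exact hC.sp_lt x
  · intro x
    have h1 : ∀ w, fderiv ℝ (fun x => R (f x)) x w = R (fderiv ℝ f x w) := by
      intro w
      have h2 : HasFDerivAt f (fderiv ℝ f x) x := (hf.differentiable (by simp) _).hasFDerivAt
      have h3 := (R : ℂ ≃L[ℝ] EuclideanSpace ℝ (Fin 2)).hasFDerivAt.comp x h2
      have h4 : HasFDerivAt (fun x => R (f x))
          (((R : ℂ ≃L[ℝ] EuclideanSpace ℝ (Fin 2)) : ℂ →L[ℝ] EuclideanSpace ℝ (Fin 2)).comp
            (fderiv ℝ f x)) x := h3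
      rw [h4.fderiv]
      rfl
    rw [h1, h1, LinearIsometryEquiv.norm_map, LinearIsometryEquiv.norm_map,
      LinearIsometryEquiv.inner_map_map]
    refine ⟨hu x, hv x, ?_⟩
    rw [hC.sin_ang, Complex.inner]
    simp [sp]
    ring

/-- **Flat Chebyshev metrics with merely continuous angle need not be locally additive.**
The question has a negative answer, and in fact there are a continuous `ω` on the whole plane with
`|sin ω| < 1`, a `C¹` map `f` from the whole plane to the Euclidean plane with `|f_u| = |f_v| = 1`,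
`f_u · f_v = sin ω` everywhere, and a point `p` such that on no neighbourhood of `p` is
`ω(u,v) = g(u) + h(v)` for any functions `g`, `h` (continuous or not). -/
theorem result : ¬ Question ∧
    ∃ (ω : ℝ × ℝ → ℝ) (f : ℝ × ℝ → EuclideanSpace ℝ (Fin 2)) (p : ℝ × ℝ),
      Continuous ω ∧ (∀ x, |Real.sin (ω x)| < 1) ∧ ContDiff ℝ 1 f ∧
      (∀ x, ‖fderiv ℝ f x (1, 0)‖ = 1 ∧ ‖fderiv ℝ f x (0, 1)‖ = 1 ∧
        inner ℝ (fderiv ℝ f x (1, 0)) (fderiv ℝ f x (0, 1)) = Real.sin (ω x)) ∧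
      ¬ ∃ U ∈ 𝓝 p, ∃ g h : ℝ → ℝ, ∀ x ∈ U, ω x = g x.1 + h x.2 := by
  refine ⟨?_, main⟩
  intro hQ
  obtain ⟨ω, f, p, hω, hs, hf, hm, hp⟩ := main
  have h1 : LocallyEuclidean univ ω := fun q _ =>
    ⟨univ, isOpen_univ, mem_univ _, subset_univ _, f, hf.contDiffOn, fun x _ => hm x⟩
  obtain ⟨a, b, c, d, hpm, -, g, h, -, -, hgh⟩ :=
    hQ univ isOpen_univ ω hω.continuousOn (fun x _ => hs x) h1 p (mem_univ _)
  exact hp ⟨_, (isOpen_Ioo.prod isOpen_Ioo).mem_nhds hpm, g, h, fun x hx => hgh _ hx.1 _ hx.2⟩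

end Pool.Agent.Results.MP_65e1c6_gt.NotAdditive
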